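import Mathlib

set_option autoImplicit false

open Filter Topology ENNReal

namespace Pool.Agent.Results.MP_b2e8e7_an.Schreier

section Defs

variable {X : Type*} [NormedAddCommGroup X] [NormedSpace ℝ X]

/-- `ca`. -/
noncomputable def ca (x : ℕ → X) : ℝ≥0∞ := ⨅ n, ⨆ k ≥ n, ⨆ l ≥ n, ‖x k - x l‖ₑ

/-- `cca`: `ca` of the Cesàro means. -/
noncomputable def cca (x : ℕ → X) : ℝ≥0∞ :=
  ca fun k => ((k : ℝ) + 1)⁻¹ • ∑ i ∈ Finset.range (k + 1), x i

/-- Weak convergence to `l`. -/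
def WeakLim (x : ℕ → X) (l : X) : Prop :=
  ∀ f : StrongDual ℝ X, Tendsto (fun k => f (x k)) atTop (𝓝 (f l))

/-- `wu` of a sequence with weak limit `l`. -/
noncomputable def wu (x : ℕ → X) (l : X) : ℝ≥0∞ :=
  ⨅ (ε : ℝ) (_ : 0 < ε) (_ : ∃ n : ℕ, ∀ f : StrongDual ℝ X, ‖f‖ ≤ 1 →
    {k | ε < |f (x k - l)|}.encard ≤ n), ENNReal.ofReal ε

/-- `ℓ₁`-spreading model with constant `δ` (index `i` here is index `i + 1` of the problem). -/
def Spread (u : ℕ → X) (δ : ℝ) : Prop :=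
  ∀ F : Finset ℕ, F.Nonempty → (∀ i ∈ F, F.card ≤ i + 1) → ∀ α : ℕ → ℝ,
    δ * ∑ i ∈ F, |α i| ≤ ‖∑ i ∈ F, α i • u i‖

/-- `wbs`. -/
noncomputable def wbs (A : Set X) : ℝ≥0∞ :=
  ⨆ (x : ℕ → X) (_ : ∀ k, x k ∈ A) (l : X) (_ : WeakLim x l),
    ⨅ (φ : ℕ → ℕ) (_ : StrictMono φ), cca (x ∘ φ)

/-- `swu`. -/
noncomputable def swu (A : Set X) : ℝ≥0∞ :=
  ⨆ (x : ℕ → X) (_ : ∀ k, x k ∈ A) (l : X) (_ : WeakLim x l),
    ⨅ (φ : ℕ → ℕ) (_ : StrictMono φ), wu (x ∘ φ) l

/-- `sm`. -/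
noncomputable def sm (A : Set X) : ℝ≥0∞ :=
  ⨆ (δ : ℝ) (_ : 0 < δ) (_ : ∃ (x : ℕ → X) (l : X), (∀ k, x k ∈ A) ∧ WeakLim x l ∧
    Spread (fun k => x k - l) δ), ENNReal.ofReal δ

end Defs

/-- Schreier sets. -/
abbrev G := {F : Finset ℕ // ∀ i ∈ F, F.card ≤ i + 1}

/-- The space. -/
abbrev E := lp (fun _ : G => ℝ) ∞

/-- The vectors. -/
noncomputable def e (k : ℕ) : E := ⟨fun F => if k ∈ F.1 then 1 else 0, memℓp_infty ⟨1, by
  rintro _ ⟨F, rfl⟩; dsimp only; split_ifs <;> simp⟩⟩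

theorem e_apply (k : ℕ) (F : G) : e k F = if k ∈ F.1 then 1 else 0 := rfl

theorem weak : WeakLim e 0 := fun f => by
  classical
  rw [map_zero]
  by_contra h
  obtain ⟨ε, hε, h⟩ : ∃ ε > 0, ∃ᶠ k in atTop, ε ≤ |f (e k)| := by
    simpa [Metric.tendsto_nhds, frequently_atTop] using h
  have hη : 0 < ε / (2 * (‖f‖ + 1)) := by positivity
  have key : ∀ N : ℕ, ∃ (y : E) (m : ℕ), N * ε ≤ f y ∧
      (∀ F : G, |y F| ≤ 1 + N * (ε / (2 * (‖f‖ + 1)))) ∧
      ∀ F : G, (∀ i ∈ F.1, m ≤ i) → y F = 0 := fun N => by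
    induction N with
    | zero => exact ⟨0, 0, by simp, by simp, by simp⟩
    | succ N ih =>
      obtain ⟨y, m, h1, h2, h3⟩ := ih
      obtain ⟨L, hL⟩ := exists_nat_gt (m / (ε / (2 * (‖f‖ + 1))))
      have hL0 : (0 : ℝ) < L := lt_of_le_of_lt (by positivity) hL
      obtain ⟨I, hI, hc⟩ := (Nat.frequently_atTop_iff_infinite.1
        (h.and_eventually (eventually_ge_atTop m))).exists_subset_card_eq L
      let s : ℕ → ℝ := fun k => SignType.sign (f (e k))
      let z : E := (L : ℝ)⁻¹ • ∑ k ∈ I, s k • e k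
      have hz : ∀ F : G, |z F| ≤ (L : ℝ)⁻¹ * (I ∩ F.1).card := fun F => by
        have : z F = (L : ℝ)⁻¹ * ∑ k ∈ I ∩ F.1, s k := by
          simp only [z, lp.coeFn_smul, lp.coeFn_sum, Pi.smul_apply, Finset.sum_apply, e_apply]
          simp
        rw [this, abs_mul, abs_of_pos (inv_pos.2 hL0)]
        gcongr
        refine (Finset.abs_sum_le_sum_abs _ _).trans ((Finset.sum_le_card_nsmul _ _ 1
          fun k _ => ?_).trans_eq (by simp))
        simp only [s]
        rcases (SignType.sign (f (e k))).trichotomy with h | h | h <;> simp [h]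
      refine ⟨y + z, max m (I.sup id + 1), ?_, fun F => ?_, fun F hF => ?_⟩
      · have a1 := Finset.card_nsmul_le_sum I (fun k => s k * f (e k)) ε fun k hk => by
          simpa [s, sign_mul_self] using (hI hk).1
        rw [hc, nsmul_eq_mul, ← le_inv_mul_iff₀ hL0] at a1
        simp only [z, map_add, map_smul, map_sum, smul_eq_mul]
        push_cast; linarith
      · have a1 := hz F
        rw [lp.coeFn_add, Pi.add_apply]
        push_cast
        by_cases hF : ∀ i ∈ F.1, m ≤ i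
        · have a2 : ((I ∩ F.1).card : ℝ) ≤ L :=
            Nat.cast_le.2 (hc ▸ Finset.card_le_card Finset.inter_subset_left)
          rw [h3 F hF, zero_add]
          refine (a1.trans ((inv_mul_le_one₀ hL0).2 a2)).trans (le_add_of_nonneg_right ?_)
          positivity
        · push Not at hF
          obtain ⟨i, hi, him⟩ := hF
          have a2 : ((I ∩ F.1).card : ℝ) ≤ m := Nat.cast_le.2
            ((Finset.card_le_card Finset.inter_subset_right).trans ((F.2 i hi).trans him))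
          rw [div_lt_iff₀ hη] at hL
          have a3 := a1.trans ((inv_mul_le_iff₀ hL0).2 (a2.trans hL.le))
          linarith [abs_add_le (y F) (z F), h2 F]
      · have a1 := hz F
        have a2 : I ∩ F.1 = ∅ := Finset.eq_empty_of_forall_notMem fun k hk => by
          have b1 := hF k (Finset.mem_inter.1 hk).2
          have b2 : k ≤ I.sup id := Finset.le_sup (f := id) (Finset.mem_inter.1 hk).1
          omega
        rw [lp.coeFn_add, Pi.add_apply, h3 F fun i hi => (le_max_left _ _).trans (hF i hi)]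
        simpa [a2] using a1
  obtain ⟨N, hN⟩ := exists_nat_gt (2 * (‖f‖ + 1) / ε)
  obtain ⟨y, -, h1, h2, -⟩ := key N
  have h3 : ‖y‖ ≤ 1 + N * (ε / (2 * (‖f‖ + 1))) := lp.norm_le_of_forall_le (by positivity) h2
  have h4 : f y ≤ (‖f‖ + 1) * (1 + N * (ε / (2 * (‖f‖ + 1)))) :=
    (le_abs_self _).trans ((f.le_opNorm y).trans (by gcongr; linarith))
  have h5 : (‖f‖ + 1) * (1 + N * (ε / (2 * (‖f‖ + 1)))) = ‖f‖ + 1 + N * ε / 2 := by field_simp
  rw [div_lt_iff₀ hε] at hN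
  linarith

theorem diam {y z : E} (hy : ∀ F, 0 ≤ y F ∧ y F ≤ 1) (hz : ∀ F, 0 ≤ z F ∧ z F ≤ 1) :
    ‖y - z‖ ≤ 1 := lp.norm_le_of_forall_le zero_le_one fun F => by
  rw [lp.coeFn_sub, Pi.sub_apply, Real.norm_eq_abs, abs_le]
  constructor <;> linarith [hy F, hz F]

theorem result : ∃ (X : Type) (_ : NormedAddCommGroup X) (_ : NormedSpace ℝ X)
    (_ : CompleteSpace X) (A : Set X), Bornology.IsBounded A ∧
    wbs A ≤ 1 ∧ 2 * sm A ≤ 1 ∧ 2 ≤ 2 * swu A := by
  have he : ∀ y ∈ Set.range e, ∀ F, 0 ≤ y F ∧ y F ≤ 1 := by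
    rintro _ ⟨k, rfl⟩ F; rw [e_apply]; split_ifs <;> simp
  refine ⟨E, inferInstance, inferInstance, inferInstance, Set.range e,
    isBounded_iff_forall_norm_le.2 ⟨1, fun y hy => by simpa using diam (he y hy) (z := 0) (by simp)⟩,
    ?_, ?_, ?_⟩
  · refine iSup₂_le fun x hx => iSup₂_le fun l _ => iInf₂_le_of_le id strictMono_id
      (iInf_le_of_le 0 (iSup₂_le fun k _ => iSup₂_le fun j _ => ?_))
    have h : ∀ (k : ℕ) F, 0 ≤ (((k : ℝ) + 1)⁻¹ • ∑ i ∈ Finset.range (k + 1), x i) F ∧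
        (((k : ℝ) + 1)⁻¹ • ∑ i ∈ Finset.range (k + 1), x i) F ≤ 1 := fun k F => by
      rw [lp.coeFn_smul, lp.coeFn_sum, Pi.smul_apply, Finset.sum_apply, smul_eq_mul]
      refine ⟨mul_nonneg (by positivity) (Finset.sum_nonneg fun i _ => (he _ (hx i) F).1),
        (inv_mul_le_one₀ (by positivity)).2 ?_⟩
      simpa using Finset.sum_le_card_nsmul (Finset.range (k + 1)) _ 1 fun i _ => (he _ (hx i) F).2
    rw [← ofReal_norm_eq_enorm]
    exact ENNReal.ofReal_le_one.2 (diam (h k) (h j))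
  · simp only [sm, ENNReal.mul_iSup]
    refine iSup₂_le fun δ _ => iSup_le fun ⟨x, l, hx, _, h⟩ => ?_
    have h1 := h {1, 2} (by simp) (by simp) fun i => if i = 1 then 1 else -1
    have h2 := diam (he _ (hx 1)) (he _ (hx 2))
    rw [← ENNReal.ofReal_ofNat, ← ENNReal.ofReal_mul zero_le_two, ENNReal.ofReal_le_one]
    norm_num [← sub_eq_add_neg] at h1
    linarith
  · refine le_mul_of_one_le_right' (le_iSup₂_of_le e (fun k => ⟨k, rfl⟩) (le_iSup₂_of_le 0 weak
      (le_iInf₂ fun φ hφ => le_iInf₂ fun ε _ => le_iInf fun ⟨n, hn⟩ => ?_)))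
    rw [ENNReal.one_le_ofReal]
    by_contra h
    let F : G := ⟨(Finset.Ico n (2 * n + 1)).image φ, fun i hi => by
      obtain ⟨j, hj, rfl⟩ := Finset.mem_image.1 hi
      have := hφ.le_apply (x := j)
      simp only [Finset.card_image_of_injective _ hφ.injective, Nat.card_Ico, Finset.mem_Ico] at *
      omega⟩
    have h1 := hn (LinearMap.mkContinuous (lp.evalₗ _ ∞ F) 1 fun y => by
      simpa using lp.norm_apply_le_norm (by simp) y F) (LinearMap.mkContinuous_norm_le _ zero_le_one _)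
    have h2 := (Set.encard_le_encard (s := ↑(Finset.Ico n (2 * n + 1))) fun k hk => by
      have : φ k ∈ F.1 := Finset.mem_image_of_mem _ hk
      simpa [e_apply, this] using h).trans h1
    rw [Set.encard_coe_eq_coe_finsetCard, Nat.card_Ico, Nat.cast_le] at h2
    omega

end Pool.Agent.Results.MP_b2e8e7_an.Schreier
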